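import Pool.Agent.W54.CL.Stm

set_option autoImplicit false

/-! # Near `0` a closed subgroup is contained in its largest subspace -/

namespace Pool.Agent.W929.CLOPEN

open Topology Filter Module Pool.Agent.W54.CL

theorem main : StOpen := by
  intro E _ _ _ H hH
  by_contra hcon
  push Not at hcon
  obtain ⟨W, hVW⟩ := Submodule.exists_isCompl (maxSub H)
  have hVH : ∀ v ∈ maxSub H, v ∈ H := by
    intro v hv
    have h1 : (1 : ℝ) • v ∈ H := hv 1
    rwa [one_smul] at h1
  let P : E →ₗ[ℝ] E := W.subtype ∘ₗ Submodule.projectionOnto W (maxSub H) hVW.symm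
  have hPW : ∀ x, P x ∈ W := fun x =>
    (Submodule.projectionOnto W (maxSub H) hVW.symm x).2
  have hPV : ∀ x, x - P x ∈ maxSub H := by
    intro x
    rw [← Submodule.ker_projectionOnto hVW.symm, LinearMap.mem_ker, map_sub]
    have h1 : Submodule.projectionOnto W (maxSub H) hVW.symm (P x) =
        Submodule.projectionOnto W (maxSub H) hVW.symm x :=
      Submodule.projectionOnto_apply_left hVW.symm _
    rw [h1, sub_self]
  have hPc : Continuous P := LinearMap.continuous_of_finiteDimensional P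
  have hex : ∀ n : ℕ, ∃ h ∈ H, ‖h‖ < 1 / ((n : ℝ) + 1) ∧ h ∉ maxSub H := fun n =>
    hcon (1 / ((n : ℝ) + 1)) (by positivity)
  choose h hhH hhn hhV using hex
  have hh0 : Tendsto h atTop (𝓝 0) := by
    rw [tendsto_zero_iff_norm_tendsto_zero]
    exact squeeze_zero (fun n => norm_nonneg _) (fun n => (hhn n).le)
      tendsto_one_div_add_atTop_nhds_zero_nat
  have hw0 : Tendsto (fun n => P (h n)) atTop (𝓝 0) := by
    have h1 := (hPc.tendsto 0).comp hh0
    rw [map_zero] at h1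
    exact h1
  have hwn0 : Tendsto (fun n => ‖P (h n)‖) atTop (𝓝 0) := by
    have h1 := hw0.norm
    rwa [norm_zero] at h1
  have hwne : ∀ n, P (h n) ≠ 0 := by
    intro n h0
    apply hhV n
    have h1 := hPV (h n)
    rwa [h0, sub_zero] at h1
  have hwH : ∀ n, P (h n) ∈ H := by
    intro n
    have h1 := H.sub_mem (hhH n) (hVH _ (hPV (h n)))
    rwa [sub_sub_cancel] at h1
  have hpos : ∀ n, 0 < ‖P (h n)‖ := fun n => norm_pos_iff.mpr (hwne n)
  have hys : ∀ n, (‖P (h n)‖)⁻¹ • P (h n) ∈ Metric.sphere (0 : E) 1 := by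
    intro n
    rw [mem_sphere_zero_iff_norm, norm_smul, norm_inv, norm_norm,
      inv_mul_cancel₀ (hpos n).ne']
  obtain ⟨y, hy, φ, hφ, hlim⟩ := (isCompact_sphere (0 : E) 1).tendsto_subseq hys
  have hyW : y ∈ W := by
    have hcl : IsClosed (W : Set E) := W.closed_of_finiteDimensional
    refine hcl.mem_of_tendsto hlim (Eventually.of_forall fun n => ?_)
    exact W.smul_mem _ (hPW _)
  have hyV : y ∈ maxSub H := by
    intro t
    have hc : Tendsto (fun n => (⌊t / ‖P (h (φ n))‖⌋ : ℝ) * ‖P (h (φ n))‖) atTop (𝓝 t) := by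
      rw [tendsto_iff_norm_sub_tendsto_zero]
      refine squeeze_zero (fun n => norm_nonneg _) (fun n => ?_) (hwn0.comp hφ.tendsto_atTop)
      have hp := hpos (φ n)
      have h1 : (⌊t / ‖P (h (φ n))‖⌋ : ℝ) * ‖P (h (φ n))‖ - t =
          ((⌊t / ‖P (h (φ n))‖⌋ : ℝ) - t / ‖P (h (φ n))‖) * ‖P (h (φ n))‖ := by
        field_simp
      rw [h1, norm_mul, norm_norm, Real.norm_eq_abs]
      have h2 : |(⌊t / ‖P (h (φ n))‖⌋ : ℝ) - t / ‖P (h (φ n))‖| ≤ 1 := by
        rw [abs_le]
        constructor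
        · have := (Int.lt_floor_add_one (t / ‖P (h (φ n))‖)).le
          linarith
        · have := Int.floor_le (t / ‖P (h (φ n))‖)
          linarith
      calc |(⌊t / ‖P (h (φ n))‖⌋ : ℝ) - t / ‖P (h (φ n))‖| * ‖P (h (φ n))‖
          ≤ 1 * ‖P (h (φ n))‖ := mul_le_mul_of_nonneg_right h2 hp.le
        _ = ‖P (h (φ n))‖ := one_mul _
    have hl2 := hc.smul hlim
    refine hH.mem_of_tendsto hl2 (Eventually.of_forall fun n => ?_)
    have hp := (hpos (φ n)).ne'
    have h3 : ((⌊t / ‖P (h (φ n))‖⌋ : ℝ) * ‖P (h (φ n))‖) •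
        ((fun n => (‖P (h n)‖)⁻¹ • P (h n)) ∘ φ) n = ⌊t / ‖P (h (φ n))‖⌋ • P (h (φ n)) := by
      simp only [Function.comp_apply]
      rw [smul_smul, mul_assoc, mul_inv_cancel₀ hp, mul_one, Int.cast_smul_eq_zsmul]
    show _ ∈ (H : Set E)
    rw [h3]
    exact H.zsmul_mem (hwH _) _
  have h0 : y = 0 := by
    have h1 : y ∈ maxSub H ⊓ W := ⟨hyV, hyW⟩
    rw [hVW.inf_eq_bot] at h1
    exact (Submodule.mem_bot ℝ).mp h1
  rw [h0, mem_sphere_zero_iff_norm, norm_zero] at hy
  exact zero_ne_one hy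

end Pool.Agent.W929.CLOPEN
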